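import Pool.Agent.R974.Span.K5

open MeasureTheory ProbabilityTheory Filter Topology Set
open scoped ENNReal NNReal

namespace Pool.Agent.Results.MP_512e2b_pr.KnightSpan

/-- The span set `{t - s : 0 ≤ s ≤ t ≤ 1, f s = f t}` of a path `f` on `[0,1]`. -/
def spanSet (f : ℝ≥0 → ℝ) : Set ℝ :=
  {u | ∃ s t : ℝ≥0, s ≤ t ∧ t ≤ 1 ∧ f s = f t ∧ u = (t : ℝ) - s}

/-- Knight's times: `τ_0 = 0`, `τ_{k+1} = inf {t > τ_k : |f t - f τ_k| = 2^{-n}}`. -/
noncomputable def tau (f : ℝ≥0 → ℝ) (n : ℕ) : ℕ → ℝ≥0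
  | 0 => 0
  | k + 1 => sInf {t | tau f n k < t ∧ |f t - f (tau f n k)| = 1 / 2 ^ n}

/-- The embedded walk `RW^{(n)}_k = 2^n f(τ_k)`. -/
noncomputable def embWalk (f : ℝ≥0 → ℝ) (n k : ℕ) : ℝ := 2 ^ n * f (tau f n k)

/-- `2^{-2n} {k - l ≥ 0 : RW^{(n)}_k = RW^{(n)}_l, 0 ≤ k, l ≤ 2^{2n}}`. -/
def walkSpanSet (f : ℝ≥0 → ℝ) (n : ℕ) : Set ℝ :=
  {u | ∃ k l : ℕ, l ≤ k ∧ k ≤ 2 ^ (2 * n) ∧ l ≤ 2 ^ (2 * n) ∧ embWalk f n k = embWalk f n l ∧
    u = ((k : ℝ) - l) / 2 ^ (2 * n)}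

open Pool.Agent.R974.Span

lemma tau_eq (f : ℝ≥0 → ℝ) (n k : ℕ) : tau f n k = kt ((1 / 2) ^ n) f k := by
  induction k with
  | zero => rfl
  | succ k ih =>
    rw [tau, kt, ih, nxt]
    rw [one_div_pow]

lemma walkSpanSet_eq (f : ℝ≥0 → ℝ) (n : ℕ) :
    walkSpanSet f n = SpN (4 ^ n) fun k => 2 ^ n * f (kt ((1 / 2) ^ n) f k) := by
  have h4 : 2 ^ (2 * n) = 4 ^ n := by rw [pow_mul]; norm_num
  have h4' : (2:ℝ) ^ (2 * n) = ((4 ^ n : ℕ) : ℝ) := by rw [pow_mul]; norm_num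
  ext u
  constructor
  · rintro ⟨k, l, h1, h2, h3, h5, h6⟩
    refine ⟨l, k, h1, h4 ▸ h2, ?_, by rw [h6, h4']⟩
    simp only [embWalk, tau_eq] at h5
    exact h5
  · rintro ⟨l, k, h1, h2, h3, h5⟩
    refine ⟨k, l, h1, h4 ▸ h2, h4 ▸ (h1.trans h2), ?_, by rw [h5, h4']⟩
    simp only [embWalk, tau_eq]
    exact h3

/-- **The rescaled span sets of Knight's embedded random walks converge in probability, in the
Hausdorff distance, to the span set of the Brownian path.** The first assertion records that almost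
surely all the infima defining Knight's times are over nonempty sets. -/
theorem result {Ω : Type*} [MeasurableSpace Ω] {P : Measure Ω} {B : ℝ≥0 → Ω → ℝ}
    (hB : IsBrownianReal B P) :
    (∀ᵐ ω ∂P, ∀ n k : ℕ, {t | tau (fun t => B t ω) n k < t ∧
      |B t ω - B (tau (fun t => B t ω) n k) ω| = 1 / 2 ^ n}.Nonempty) ∧
    ∀ ε : ℝ, 0 < ε → Tendsto (fun n : ℕ => P {ω | ε < Metric.hausdorffDist
      (walkSpanSet (fun t => B t ω) n) (spanSet fun t => B t ω)}) atTop (𝓝 0) := by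
  obtain ⟨B', hB', hBB'⟩ := good_version hB
  refine ⟨?_, fun ε hε => ?_⟩
  · have h1 : ∀ᵐ ω ∂P, ∀ n k : ℕ, ok ((1 / 2) ^ n) (fun t => B' t ω) k :=
      ae_all_iff.2 fun n => ae_all_iff.2 fun k => ae_ok hB' (by positivity) k
    filter_upwards [h1, hBB'] with ω hω hω2 n k
    have h2 : (fun t => B' t ω) = fun t => B t ω := by funext t; exact hω2 t
    rw [h2] at hω
    have h3 := hω n (k + 1) k (Nat.lt_succ_self k)
    rw [← tau_eq, nxt, one_div_pow] at h3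
    exact h3
  refine (knight_span hB' hε).congr fun n => ?_
  apply measure_congr
  filter_upwards [hBB'] with ω hω
  have h1 : (fun t => B' t ω) = fun t => B t ω := by funext t; exact hω t
  apply propext
  change ε < Metric.hausdorffDist (SpN (4 ^ n) fun k =>
      2 ^ n * (fun t => B' t ω) (kt ((1 / 2) ^ n) (fun t => B' t ω) k)) (Sp fun t => B' t ω) ↔
    ε < Metric.hausdorffDist (walkSpanSet (fun t => B t ω) n) (spanSet fun t => B t ω)
  rw [h1, walkSpanSet_eq]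
  rfl

end Pool.Agent.Results.MP_512e2b_pr.KnightSpan
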